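import Pool.Agent.Lib.MP_acafa7_al.MS.H70.Kit

/-! Module Rot.  (MP_acafa7_al, helper70) -/

namespace MSG.H70

open Classical

theorem rot : RotStatement := by
  intro V D _ X a ha M R x y l s hw hlast
  obtain ⟨hR, c, hc, hc0⟩ := hw
  obtain ⟨r, R0, rfl⟩ : ∃ r R0, R = r :: R0 := by
    cases R with
    | nil => exact absurd rfl hR.1
    | cons r R0 => exact ⟨r, R0, rfl⟩
  have hwk : M.wk (r :: R0) = M.f r :: M.t r :: M.wkA (M.h r) R0 := by
    simp [LMap.wk, LMap.wkA]
  have hc' := hc
  rw [hwk] at hc'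
  simp only [List.map_cons, List.cons.injEq] at hc'
  obtain ⟨h1, h2, h3⟩ := hc'
  have hl := wk_last M hR (r := r) rfl
  rw [hc, List.getLast?_map, hlast] at hl
  simp only [Option.map_some, Option.some.injEq] at hl
  rw [h1, ← pw_add, ← pw_add] at hl
  have hs : M.hol (r :: R0) = s := by
    have : (a ^ (-(M.hol (r :: R0) + c))) ((a ^ (c + s)) x) = x := by
      rw [hl, ← pw_add]; simp
    rw [← pw_add] at this
    have := ha.free x _ this
    omega
  refine ⟨⟨IsFace.rotate M.toDMap hR 1, c - M.h r, ?_, ?_⟩, hs, ?_⟩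
  · have hrot : (r :: R0).rotate 1 = R0 ++ [r] := by simp
    rw [hrot]
    have hp := ((isFace_cons M.toDMap r R0).1 hR).2
    have hp2 : pth M.toDMap (M.φ r) R0 r := hp.2
    rw [wk_split M R0 [r] hp2 ⟨rfl, rfl⟩ (by simp)]
    -- first rewrite in terms of wkA
    have := walk_split M R0 [r] 0 (M.φ r) r hp2
    simp only [zero_add] at this
    rw [← this, wkA_append]
    have hT : (a ^ (0:ℤ)) (M.f (M.φ r)) = (a ^ (c - M.h r)) y := by
      apply pw_inj a (M.h r)
      rw [← pw_add, ← pw_add, add_zero, ← t_eq, h2]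
      congr 2
      ring
    have hW : M.wkA 0 R0 = l.map (a ^ (c - M.h r)) := by
      have e1 := wkA_shift M R0 (M.h r) (-M.h r)
      rw [h3, neg_add_cancel] at e1
      rw [e1, List.map_map]
      apply List.map_congr_left
      intro z _
      simp only [Function.comp]
      rw [← pw_add]
      congr 2
      ring
    rw [hT, hW]
    simp only [List.map_cons, List.map_append, List.map_nil, LMap.wkA, zero_add]
    rw [h2, ← pw_add, ← pw_add]
    have : M.hol R0 + c = c - M.h r + s := by
      rw [← hs, hol_cons]; ring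
    rw [this]
  · intro h0
    rw [hc0 h0, (h0 r).2]
    rfl
  · intro h0
    rw [← hs]
    exact hol_zero M h0 _

end MSG.H70
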