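import Pool.Agent.Lib.MP_acafa7_al.MS.H70.Rechart

/-! Module StepD.  (MP_acafa7_al, helper70) -/

namespace MSG.H70

open Classical

section aux

variable {V D D' : Type} {a : Equiv.Perm V} (M : LMap V D a) (M' : LMap V D' a)

theorem sA_map_back (j : D' → D) (hf : ∀ x, M'.f x = M.f (j x)) (l : List D') :
    ∀ s, (∀ x ∈ l.dropLast, M'.h x = M.h (j x)) → sA M' s l = sA M s (l.map j) := by
  induction l with
  | nil => intro s _; rfl
  | cons x l ih =>
    intro s hh
    cases l with
    | nil => simp [sA, hf]
    | cons y l =>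
      have h1 : M'.h x = M.h (j x) := hh x (by simp)
      have h2 := ih (s + M.h (j x)) (fun z hz => hh z (by simpa using Or.inr hz))
      rw [List.map_cons]
      show (a ^ s) (M'.f x) :: sA M' (s + M'.h x) (y :: l) = (a ^ s) (M.f (j x)) :: sA M (s + M.h (j x)) _
      rw [hf, h1, h2]

theorem wkA_map_back (j : D' → D) (ht : ∀ x, M'.t x = M.t (j x)) (l : List D') :
    ∀ s, (∀ x ∈ l.dropLast, M'.h x = M.h (j x)) → M'.wkA s l = M.wkA s (l.map j) := by
  induction l with
  | nil => intro s _; rfl
  | cons x l ih =>
    intro s hh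
    cases l with
    | nil => simp [LMap.wkA, ht]
    | cons y l =>
      have h1 : M'.h x = M.h (j x) := hh x (by simp)
      have h2 := ih (s + M.h (j x)) (fun z hz => hh z (by simpa using Or.inr hz))
      rw [List.map_cons]
      show (a ^ s) (M'.t x) :: M'.wkA (s + M'.h x) (y :: l) =
        (a ^ s) (M.t (j x)) :: M.wkA (s + M.h (j x)) _
      rw [ht, h1, h2]

end aux

/-- in a path with distinct darts ending at `e`, only the last dart is mapped to `e`
(if `e` is not in the tail of the path) -/
theorem pth_dropLast {D : Type} (M : DMap D) (l : List D) : ∀ (d e : D), pth M d l e →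
    (∀ x ∈ l.tail, x ≠ e) → ∀ x ∈ l.dropLast, M.φ x ≠ e := by
  induction l with
  | nil => intro d e _ _ x hx; simp at hx
  | cons y l ih =>
    intro d e h hne x hx
    obtain ⟨h1, h2⟩ := h
    cases l with
    | nil => simp at hx
    | cons z l =>
      have hz : z = M.φ d := h2.1
      have hx' : x = y ∨ x ∈ (z :: l).dropLast := by simpa using hx
      rcases hx' with h | h
      · rw [h, h1, ← hz]
        exact hne z (by simp)
      · exact ih _ _ h2 (fun w hw => hne w (by simpa using Or.inr hw)) x h

theorem stepd (h1 : ZipStatement) : StepDStatement := by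
  intro V D _ X a ha M R Y ω u v x y hpl hadj hlen hw
  obtain ⟨hR, c, hc, hc0⟩ := hw
  obtain ⟨R1, R3, d0, d, hRR, hp1, hp2, hl1, hl2, hs1, hx, hs2⟩ :=
    hasWalk_split M (u := u) (x := x) (v := y :: x :: v) hR hc
  set s := M.hol R1 with hs
  obtain ⟨R2, rfl⟩ : ∃ R2, R3 = d :: M.φ d :: R2 := by
    cases R3 with
    | nil => simp at hl2
    | cons p R3 =>
      cases R3 with
      | nil => simp at hl2
      | cons q R3 =>
        have h1 : p = d := hp2.1
        have h2 : q = M.φ d := hp2.2.1
        exact ⟨R3, by rw [h1, h2]⟩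
  set e := M.φ d with he
  have hp3 : pth M.toDMap (M.φ e) R2 d0 := hp2.2.2
  have hnodup := hR.2.1
  rw [hRR] at hnodup
  have hne0 : R1 ++ R2 ≠ [] := by
    intro h
    have h' := List.append_eq_nil_iff.1 h
    rw [h'.1] at hl1
    rw [h'.2] at hl2
    simp at hl1 hl2
    rw [List.length_append, ← hl1, List.length_cons, hl2] at hlen
    simp at hlen
  have hde : e ≠ d := by
    intro h
    rw [h, List.nodup_append] at hnodup
    simp at hnodup
  -- walk data
  simp only [LMap.wkA, List.map_cons, List.cons.injEq] at hs2
  obtain ⟨hy1, hx2, hv⟩ := hs2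
  have hback : (a ^ M.h d) (M.t (M.φ d)) = M.f d := by
    apply pw_inj a s
    rw [← pw_add, hx, ← he]
    exact hx2
  obtain ⟨D', _, M', j, hj, hrange, hφ, hι, hf, hγ, hh, hpl'⟩ := h1 V D a M d hde hback
  rw [← he] at hφ hh hrange
  have hfe : (a ^ (M.h d + M.h e)) (M.f (M.φ e)) = M.f d := by
    rw [pw_add, ← t_eq]; exact hback
  have ht : ∀ z, M'.t z = M.t (j z) := by
    intro z
    rw [t_eq, t_eq, hh, hf, hφ]
    by_cases hz : M.φ (j z) = d
    · rw [if_pos hz, if_pos hz, hz, add_assoc, pw_add, hfe]
    · rw [if_neg hz, if_neg hz]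
  have hj_of : ∀ z, z ≠ d → z ≠ e → ∃ z', j z' = z := fun z h h' => (hrange z).2 ⟨h, h'⟩
  have hlist : ∀ l : List D, d ∉ l → e ∉ l → ∃ l' : List D', l'.map j = l := by
    intro l
    induction l with
    | nil => intro _ _; exact ⟨[], rfl⟩
    | cons z l ih =>
      intro hd he
      simp only [List.mem_cons, not_or] at hd he
      obtain ⟨l', hl'⟩ := ih hd.2 he.2
      obtain ⟨z', hz'⟩ := hj_of z (Ne.symm hd.1) (Ne.symm he.1)
      exact ⟨z' :: l', by simp [hz', hl']⟩
  have hnd : d ∉ R1 ∧ d ∉ R2 ∧ e ∉ R1 ∧ e ∉ R2 ∧ (R1 ++ R2).Nodup := by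
    rw [List.nodup_middle, List.nodup_cons, List.nodup_middle, List.nodup_cons] at hnodup
    obtain ⟨k1, k2, k3⟩ := hnodup
    simp only [List.mem_append, List.mem_cons, not_or] at k1 k2
    exact ⟨k1.1, k1.2.2, k2.1, k2.2, k3⟩
  obtain ⟨hd1, hd2, he1, he2, hnd12⟩ := hnd
  obtain ⟨L1, hL1⟩ := hlist R1 hd1 he1
  obtain ⟨L2, hL2⟩ := hlist R2 hd2 he2
  -- paths in M'
  have key : ∀ (l : List D') (p q : D'), pth M.toDMap (j p) (l.map j) (j q) →
      (∀ z ∈ l, M.φ (j z) ≠ d) → pth M'.toDMap p l q := by
    intro l
    induction l with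
    | nil => intro p q h _; exact hj h
    | cons z l ih =>
      intro p q h hne
      obtain ⟨h1, h2⟩ := h
      have hz : z = p := hj h1
      subst hz
      refine ⟨rfl, ih _ _ ?_ (fun w hw => hne w (by simp [hw]))⟩
      rw [hφ, if_neg (hne z (by simp))]
      exact h2
  -- path to d
  have key2 : ∀ (l : List D') (p q : D'), l ≠ [] → pth M.toDMap (j p) (l.map j) d →
      j q = M.φ e → d ∉ (l.map j).tail → pth M'.toDMap p l q := by
    intro l
    induction l with
    | nil => intro p q h _; exact absurd rfl h
    | cons z l ih =>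
      intro p q _ h hq hne
      obtain ⟨h1, h2⟩ := h
      have hz : z = p := hj h1
      subst hz
      refine ⟨rfl, ?_⟩
      cases l with
      | nil =>
        have h3 : M.φ (j z) = d := h2
        apply hj
        rw [hφ, if_pos h3, hq]
      | cons w l =>
        have hw : j w = M.φ (j z) := h2.1
        have hjw : M.φ (j z) ≠ d := by
          rw [← hw]
          intro hh
          apply hne
          simp [hh]
        apply ih _ _ (by simp) _ hq
        · intro hh
          apply hne
          simp only [List.map_cons, List.tail_cons] at hh ⊢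
          exact List.mem_cons_of_mem _ hh
        · rw [hφ, if_neg hjw]
          exact h2
  have hmem : ∀ z', z' ∈ L1 ++ L2 ↔ j z' ∈ R := by
    intro z'
    rw [hRR, List.mem_append]
    constructor
    · rintro (h | h)
      · rw [← hL1]; simp only [List.mem_append]; exact Or.inl (List.mem_map_of_mem h)
      · rw [← hL2]; simp only [List.mem_append, List.mem_cons]
        exact Or.inr (Or.inr (Or.inr (List.mem_map_of_mem h)))
    · intro h
      have hz := (hrange (j z')).1 ⟨z', rfl⟩
      simp only [List.mem_append, List.mem_cons] at h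
      rcases h with h | h | h | h
      · rw [← hL1] at h
        obtain ⟨w, hw, hw'⟩ := List.mem_map.1 h
        rw [← hj hw']; exact Or.inl hw
      · exact absurd h hz.1
      · exact absurd h hz.2
      · rw [← hL2] at h
        obtain ⟨w, hw, hw'⟩ := List.mem_map.1 h
        rw [← hj hw']; exact Or.inr hw
  have hdR : d ∈ R := by rw [hRR]; simp
  have heR : e ∈ R := by rw [hRR]; simp
  have hφeR : M.φ e ∈ R := IsFace.φ_mem M.toDMap hR heR
  have hnd' : (L1 ++ L2).Nodup := by
    apply List.Nodup.of_map j
    rw [List.map_append, hL1, hL2]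
    exact hnd12
  -- the dart after e
  have hφe : M.φ e ≠ d ∧ M.φ e ≠ e := by
    constructor
    · intro h
      -- then R2 = [] and R1 = []
      cases R2 with
      | nil =>
        have h3 : M.φ e = d0 := hp3
        cases R1 with
        | nil => exact hne0 rfl
        | cons w l =>
          have h4 : w = d0 := hp1.1
          apply hd1
          rw [h4, ← h3, h]; simp
      | cons w l =>
        have h4 : w = M.φ e := hp3.1
        apply hd2
        rw [h4, h]; simp
    · intro h
      have := M.φ.injective (h.trans he)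
      exact hde this
  obtain ⟨g, hg⟩ := hj_of (M.φ e) hφe.1 hφe.2
  -- the path of L1, L2
  have hpaths : ∃ b, pth M'.toDMap b L1 g ∧ pth M'.toDMap g L2 b := by
    by_cases hR1 : R1 = []
    · have hL1' : L1 = [] := by
        have := congrArg List.length hL1
        rw [hR1] at this
        simpa using this
      have hR2 : R2 ≠ [] := fun h => hne0 (by rw [hR1, h]; rfl)
      have hL2' : L2 ≠ [] := by
        intro h; rw [h] at hL2; exact hR2 hL2.symm
      refine ⟨g, by rw [hL1']; exact rfl, ?_⟩
      have hd0 : d0 = d := by rw [hR1] at hp1; exact hp1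
      apply key2 L2 g g hL2' _ hg
      · rw [hL2]; exact fun h => hd2 (List.mem_of_mem_tail h)
      · rw [hL2, hg, ← hd0]; exact hp3
    · have hL1' : L1 ≠ [] := by
        intro h; rw [h] at hL1; exact hR1 hL1.symm
      have hd0 : d0 ∈ R1 := pth_head_mem M.toDMap hR1 hp1
      obtain ⟨b, hb⟩ : ∃ b, j b = d0 := by
        rw [← hL1] at hd0
        obtain ⟨b, _, hb⟩ := List.mem_map.1 hd0
        exact ⟨b, hb⟩
      refine ⟨b, ?_, ?_⟩
      · apply key2 L1 b g hL1' _ hg
        · rw [hL1]; exact fun h => hd1 (List.mem_of_mem_tail h)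
        · rw [hL1, hb]; exact hp1
      · apply key
        · rw [hL2, hg, hb]; exact hp3
        · intro z hz hzd
          rcases pth_mem M.toDMap R2 (M.φ e) d0 (j z) hp3
            (by rw [← hL2]; exact List.mem_map_of_mem hz) with h | h
          · rw [hzd] at h; exact hd2 h
          · rw [hzd] at h; rw [h] at hd1; exact hd1 hd0
  obtain ⟨b, hq1, hq2⟩ := hpaths
  have hface : M'.IsFace (L1 ++ L2) := by
    apply isFace_of_pth M'.toDMap (x := b) _ hnd' ((pth_append M'.toDMap L1 L2 b b).2 ⟨g, hq1, hq2⟩)
    intro h
    apply hne0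
    rw [← hL1, ← hL2, ← List.map_append, h]
    rfl
  have hφnot : ∀ z', j z' ∉ R → M.φ (j z') ≠ d := by
    intro z' hz' h
    apply hz'
    rw [← IsFace.φ_mem_iff M.toDMap hR, h]
    exact hdR
  have hD' : Fintype.card D = Fintype.card D' + 2 := by
    have e' : D' ⊕ Bool ≃ D := by
      refine Equiv.ofBijective (fun z : D' ⊕ Bool => match z with
        | Sum.inl z => j z
        | Sum.inr true => d
        | Sum.inr false => e) ⟨?_, ?_⟩
      · rintro (z | _ | _) (w | _ | _) h <;> simp at h ⊢
        · exact hj h
        · exact ((hrange (j z)).1 ⟨z, rfl⟩).2 h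
        · exact ((hrange (j z)).1 ⟨z, rfl⟩).1 h
        · exact ((hrange (j w)).1 ⟨w, rfl⟩).2 h.symm
        · exact hde h
        · exact ((hrange (j w)).1 ⟨w, rfl⟩).1 h.symm
        · exact hde h.symm
      · intro z
        by_cases h1 : z = d
        · exact ⟨Sum.inr true, h1.symm⟩
        · by_cases h2 : z = e
          · exact ⟨Sum.inr false, h2.symm⟩
          · obtain ⟨z', hz'⟩ := hj_of z h1 h2
            exact ⟨Sum.inl z', hz'⟩
    rw [← Fintype.card_congr e']
    simp
  -- the walk
  have hwalk : ∃ c' : ℤ, M'.wk (L1 ++ L2) = (u ++ x :: v).map (a ^ c') ∧ (M.Zero → c' = 0) := by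
    by_cases hR1 : R1 = []
    · have hL1' : L1 = [] := by
        have := congrArg List.length hL1
        rw [hR1] at this
        simpa using this
      have hs0 : s = 0 := by rw [hs, hR1]; rfl
      have hd0 : d0 = d := by rw [hR1] at hp1; exact hp1
      have hu : u = [] := by rw [hR1] at hl1; simpa using hl1.symm
      refine ⟨c - (M.h d + M.h e), ?_, ?_⟩
      · have hwk := wk_split M' L1 L2 hq1 hq2 hface.1
        rw [hwk]
        subst hL1'
        simp only [sA, hol_nil, List.nil_append]
        rw [hu, wkA_map_back M M' j ht L2 0, hL2, hf, hg]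
        · simp only [List.nil_append, List.map_cons, List.cons.injEq]
          constructor
          · apply pw_inj a (M.h d + M.h e)
            rw [← pw_add, ← pw_add, add_zero, hfe]
            have : (a ^ (0:ℤ)) (M.f d) = (a ^ c) x := by rw [← hs0]; exact hx
            simp only [zpow_zero, Equiv.Perm.coe_one, id_eq] at this
            rw [this]
            congr 2
            ring
          · rw [hs0, zero_add] at hv
            have e1 := wkA_shift M R2 (M.h d + M.h e) (-(M.h d + M.h e))
            rw [hv, neg_add_cancel, List.map_map] at e1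
            rw [e1]
            apply List.map_congr_left
            intro z _
            simp only [Function.comp]
            rw [← pw_add]
            congr 2
            ring
        · intro z hz
          rw [hh, if_neg]
          have h4 := pth_dropLast M.toDMap R2 (M.φ e) d (by rw [← hd0]; exact hp3)
            (fun w hw hwd => hd2 (by rw [← hwd]; exact List.mem_of_mem_tail hw)) (j z)
          apply h4
          rw [← hL2]
          rw [← List.map_dropLast]
          exact List.mem_map_of_mem hz
      · intro h0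
        rw [hc0 h0, (h0 d).2, (h0 e).2]
        rfl
    · have hL1' : L1 ≠ [] := by
        intro h; rw [h] at hL1; exact hR1 hL1.symm
      have hd0 : d0 ∈ R1 := pth_head_mem M.toDMap hR1 hp1
      have hdrop : ∀ z ∈ L1.dropLast, M'.h z = M.h (j z) := by
        intro z hz
        rw [hh, if_neg]
        have h4 := pth_dropLast M.toDMap R1 d0 d hp1
          (fun w hw hwd => hd1 (by rw [← hwd]; exact List.mem_of_mem_tail hw)) (j z)
        apply h4
        rw [← hL1, ← List.map_dropLast]
        exact List.mem_map_of_mem hz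
      have hlast : ∀ z ∈ L2, M'.h z = M.h (j z) := by
        intro z hz
        rw [hh, if_neg]
        intro hzd
        rcases pth_mem M.toDMap R2 (M.φ e) d0 (j z) hp3
          (by rw [← hL2]; exact List.mem_map_of_mem hz) with h | h
        · rw [hzd] at h; exact hd2 h
        · rw [hzd] at h; rw [h] at hd1; exact hd1 hd0
      -- holonomy of L1
      have hholL : M'.hol L1 = s + (M.h d + M.h e) := by
        have hgl := List.dropLast_append_getLast hL1'
        set w := L1.getLast hL1' with hw
        have hwd : M.φ (j w) = d := by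
          have h5 : R1 = (L1.dropLast.map j) ++ [j w] := by
            rw [← hL1]
            conv_lhs => rw [← hgl]
            simp
          rw [h5, pth_append] at hp1
          obtain ⟨q, _, hq⟩ := hp1
          obtain ⟨hq1, hq2⟩ := hq
          rw [hq1]; exact hq2
        have h6 : ∀ l : List D', (∀ z ∈ l, M'.h z = M.h (j z)) → M'.hol l = M.hol (l.map j) := by
          intro l
          induction l with
          | nil => intro _; rfl
          | cons z l ih =>
            intro hz
            rw [List.map_cons, hol_cons, hol_cons, hz z (by simp),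
              ih (fun w hw => hz w (by simp [hw]))]
        have h7 : s = M.hol (L1.dropLast.map j) + M.h (j w) := by
          rw [hs, ← hL1]
          conv_lhs => rw [← hgl]
          rw [List.map_append, hol_append]
          simp [hol_cons, hol_nil]
        conv_lhs => rw [← hgl]
        rw [hol_append, h6 _ hdrop, h7]
        simp only [hol_cons, hol_nil, add_zero]
        rw [hh, if_pos hwd]
        ring
      refine ⟨c, ?_, hc0⟩
      rw [wk_split M' L1 L2 hq1 hq2 hface.1, sA_map_back M M' j hf L1 0 hdrop, hL1, hs1, hholL,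
        wkA_map_back M M' j ht L2 _ (fun z hz => hlast z (List.mem_of_mem_dropLast hz)), hL2, hf, hg]
      rw [List.map_append, List.map_cons, pw_add, hfe, hx, ← add_assoc, hv]
  have hZ : M.Zero → M'.Zero := by
    intro h0 z
    rw [hγ, hh]
    constructor
    · split_ifs <;> simp [(h0 _).1, (h0 _).2]
    · split_ifs <;> simp [(h0 _).2]
  have hRel : M.Rel R M' (L1 ++ L2) 0 := by
    have hch : ∀ z : {z : D // z ∉ R}, ∃ z', j z' = z.1 := by
      intro z
      apply hj_of
      · intro h; exact z.2 (h ▸ hdR)
      · intro h; exact z.2 (h ▸ heR)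
    choose J hJ using hch
    refine ⟨J, ?_, ?_, ?_, ?_, ?_, ?_⟩
    · intro z w h
      apply Subtype.ext
      rw [← hJ z, ← hJ w, h]
    · intro z h
      rw [hmem, hJ] at h
      exact z.2 h
    · intro z w h
      apply hj
      rw [hφ, hJ, hJ, if_neg, h]
      rw [h]
      intro h'; exact w.2 (h' ▸ hdR)
    · intro z
      rw [hf, hh, hJ, if_neg]
      · exact ⟨rfl, rfl⟩
      · intro h
        apply z.2
        rw [← IsFace.φ_mem_iff M.toDMap hR, h]
        exact hdR
    · intro d' hd' hd''
      exfalso
      rw [hmem] at hd'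
      apply hd'' ⟨j d', hd'⟩
      apply hj
      rw [hJ]
    · rw [hD', hRR, ← hL1, ← hL2]
      simp
      ring
  have hadj' : M'.AdjM X.G := by
    intro z
    rw [hf, ht]
    exact hadj _
  by_cases h0 : M.Zero
  · obtain ⟨c', hc'1, hc'2⟩ := hwalk
    refine ⟨D', inferInstance, M', L1 ++ L2, ⟨hface, c', hc'1, fun _ => hc'2 h0⟩, hpl' hpl, hadj',
      hRel, ?_⟩
    intro _
    refine ⟨hZ h0, ?_, ?_⟩
    · intro hY z
      rw [hf]; exact hY _
    · unfold LMap.wsum
      rw [add_zero]
      apply Finset.sum_of_injOn j
      · intro z _ w _ h; exact hj h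
      · intro z _; simp
      · intro z _ hz
        simp only [Set.mem_ofPred_eq]
        rw [if_pos]
        by_cases h1 : z = d
        · rw [h1]; exact hdR
        · by_cases h2 : z = e
          · rw [h2]; exact heR
          · exfalso
            obtain ⟨z', hz'⟩ := hj_of z h1 h2
            apply hz; rw [← hz']; simp
      · intro z _
        simp only [Set.mem_ofPred_eq]
        by_cases hz : j z ∈ R
        · rw [if_pos ((hmem z).2 hz), if_pos hz]
        · have hz1 : M.φ (j z) ∉ R := fun h => hz ((IsFace.φ_mem_iff M.toDMap hR).1 h)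
          have e1 : j (M'.φ z) = M.φ (j z) := by rw [hφ, if_neg (hφnot z hz)]
          have e2 : j (M'.φ (M'.φ z)) = M.φ (M.φ (j z)) := by
            rw [hφ, if_neg, e1]
            apply hφnot; rw [e1]; exact hz1
          rw [if_neg (fun h => hz ((hmem z).1 h)), if_neg hz, hf, hf, hf, e1, e2]
  · obtain ⟨c', hc'1, _⟩ := hwalk
    obtain ⟨M'', hD'', hnZ, hfh, hTri, hAdj, k, hk⟩ := rechart M' (L1 ++ L2) hface
    refine ⟨D', inferInstance, M'', L1 ++ L2, ⟨?_, k + c', ?_, fun h => absurd h hnZ⟩, ?_, ?_, ?_,
      fun h => absurd h h0⟩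
    · rw [hD'']; exact hface
    · rw [hk, hc'1, List.map_map]
      apply List.map_congr_left
      intro z _
      rw [pw_add]; rfl
    · rw [hD'']; exact hpl' hpl
    · exact hAdj X.G (fun n x y => aut_pow_adj ha.adj n x y) hadj'
    · obtain ⟨J, hJ1, hJ2, hJ3, hJ4, hJ5, hJ6⟩ := hRel
      refine ⟨J, hJ1, hJ2, ?_, ?_, ?_, hJ6⟩
      · intro z w h
        rw [hD'']; exact hJ3 z w h
      · intro z
        rw [(hfh _ (hJ2 z)).1, (hfh _ (hJ2 z)).2]
        exact hJ4 z
      · intro d' h1 h2
        rw [hTri]; exact hJ5 d' h1 h2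

end MSG.H70
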