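import Pool.Agent.Lib.MP_acafa7_al.MS.H70.Kit

/-! Module StepI.  (MP_acafa7_al, helper70) -/

namespace MSG.H70

open Classical

section aux

variable {V D D' : Type} {a : Equiv.Perm V} (M : LMap V D a) (M' : LMap V D' a)

theorem sA_map (j : D → D') (hf : ∀ x, M'.f (j x) = M.f x) (hh : ∀ x, M'.h (j x) = M.h x)
    (l : List D) : ∀ s, sA M' s (l.map j) = sA M s l := by
  induction l with
  | nil => intro s; rfl
  | cons x l ih => intro s; simp [sA, hf, hh, ih]

theorem wkA_map (j : D → D') (ht : ∀ x, M'.t (j x) = M.t x) (hh : ∀ x, M'.h (j x) = M.h x)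
    (l : List D) : ∀ s, M'.wkA s (l.map j) = M.wkA s l := by
  induction l with
  | nil => intro s; rfl
  | cons x l ih => intro s; simp [LMap.wkA, ht, hh, ih]

theorem hol_map (j : D → D') (hh : ∀ x, M'.h (j x) = M.h x) (l : List D) :
    M'.hol (l.map j) = M.hol l := by
  induction l with
  | nil => rfl
  | cons x l ih => simp [hol_cons, hh, ih]

end aux

theorem stepi (h1 : AddHStatement) : StepIStatement := by
  intro V D _ X a ha M R Y ω u v x y hpl hadj hxy hyY hw
  obtain ⟨hR, c, hc, hc0⟩ := hw
  obtain ⟨R1, R2, d, r, hRR, hp1, hp2, hl1, hl2, hs1, hx, hs2⟩ := hasWalk_split M hR hc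
  set s := M.hol R1 with hs
  have hrR : r ∈ R := by
    rw [hRR]
    cases R2 with
    | nil =>
      have : r = d := hp2
      subst this
      cases R1 with
      | nil => rw [hRR] at hR; exact absurd rfl hR.1
      | cons z l => rw [show z = r from hp1.1]; simp
    | cons z l => rw [show z = r from hp2.1]; simp
  obtain ⟨D', _, M', j, n, n', hj, hnn, hjn, hall, hφj, hφn, hφn', hιj, hιn, hjd, hfn, hfn',
    hγn, hhn, hhn', hpl'⟩ := h1 V D a M r ((a ^ (c - s)) y)
  have hf : ∀ x, M'.f (j x) = M.f x := fun x => (hjd x).1
  have hγ : ∀ x, M'.γ (j x) = M.γ x := fun x => (hjd x).2.1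
  have hh : ∀ x, M'.h (j x) = M.h x := fun x => (hjd x).2.2
  have hιn' : M'.ι n' = n := by rw [← hιn, M'.ιι]
  have hγn' : M'.γ n' = 0 := by
    have := M'.γι n
    rw [hιn, hγn] at this
    simpa using this
  have ht : ∀ x, M'.t (j x) = M.t x := by
    intro x
    unfold LMap.t
    rw [hγ, hιj, hf]
  have htn : M'.t n = (a ^ (c - s)) y := by
    unfold LMap.t
    rw [hγn, hιn, hfn']; simp
  have htn' : M'.t n' = M.f r := by
    unfold LMap.t
    rw [hγn', hιn', hfn]; simp
  have hfr : M.f r = (a ^ (c - s)) x := by
    apply pw_inj a s
    rw [hx, ← pw_add]; congr 2; ring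
  have hnodup := hR.2.1
  rw [hRR] at hnodup
  have key : ∀ (l : List D) (d e : D), pth M.toDMap d l e → (∀ x ∈ l.tail, x ≠ r) →
      pth M'.toDMap (j d) (l.map j) (if l = [] then j e else if e = r then n else j e) := by
    intro l
    induction l with
    | nil => intro d e h _; have : d = e := h; subst this; simp [pth]
    | cons z l ih =>
      intro d e h hne
      obtain ⟨h1, h2⟩ := h
      subst h1
      refine ⟨rfl, ?_⟩
      rw [if_neg (by simp)]
      cases l with
      | nil =>
        have : M.φ z = e := h2
        subst this
        rw [hφj]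
        exact rfl
      | cons w l =>
        have hw : w = M.φ z := h2.1
        have hφz : M.φ z ≠ r := by
          rw [← hw]
          exact hne w (by simp)
        have := ih (M.φ z) e h2 (by
          intro x hx
          exact hne x (by simpa using Or.inr hx))
        rw [if_neg (by simp)] at this
        rw [hφj, if_neg hφz]
        exact this
  have hpR1 : pth M'.toDMap (if R1 = [] then n else j d) (R1.map j) n := by
    by_cases hR1 : R1 = []
    · subst hR1; simp [pth]
    · rw [if_neg hR1]
      have := key R1 d r hp1 (by
        intro q hq hqr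
        rw [hqr] at hq
        -- r is in the tail of R1; but r is the head of R2 or of R1
        cases R1 with
        | nil => exact hR1 rfl
        | cons z l =>
          have hxl : r ∈ l := by simpa using hq
          cases R2 with
          | nil =>
            have h3 : r = d := hp2
            have h4 : z = d := hp1.1
            rw [h4, ← h3] at hnodup
            simp [hxl] at hnodup
          | cons w l' =>
            have h3 : w = r := hp2.1
            rw [h3] at hnodup
            rw [List.nodup_append] at hnodup
            exact hnodup.2.2 r (by simp [hxl]) r (by simp) rfl)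
      rw [if_neg hR1, if_pos rfl] at this
      exact this
  have hpR2 : pth M'.toDMap (j r) (R2.map j) (if R1 = [] then n else j d) := by
    by_cases hR1 : R1 = []
    · have hdr : d = r := by rw [hR1] at hp1; exact hp1
      have hR2 : R2 ≠ [] := by
        intro h; rw [hRR, hR1, h] at hR; exact hR.1 rfl
      have := key R2 r d hp2 (by
        intro q hq hqr
        rw [hqr] at hq
        cases R2 with
        | nil => exact hR2 rfl
        | cons w l' =>
          have h3 : w = r := hp2.1
          have hxl : r ∈ l' := by simpa using hq
          rw [h3, hR1] at hnodup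
          simp [hxl] at hnodup)
      rw [if_neg hR2, if_pos hdr] at this
      rw [if_pos hR1]
      exact this
    · by_cases hR2 : R2 = []
      · subst hR2
        have : r = d := hp2
        rw [if_neg hR1, this]
        exact rfl
      · have hdr : d ≠ r := by
          intro h
          cases R1 with
          | nil => exact hR1 rfl
          | cons z l =>
            cases R2 with
            | nil => exact hR2 rfl
            | cons w l' =>
              have h3 : w = r := hp2.1
              have h4 : z = d := hp1.1
              rw [h3, h4, h] at hnodup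
              simp at hnodup
        have := key R2 r d hp2 (by
          intro q hq hqr
          rw [hqr] at hq
          cases R2 with
          | nil => exact hR2 rfl
          | cons w l' =>
            have h3 : w = r := hp2.1
            have hxl : r ∈ l' := by simpa using hq
            rw [h3] at hnodup
            rw [List.nodup_append] at hnodup
            have := hnodup.2.1
            simp [hxl] at this)
        rw [if_neg hR2, if_neg hdr] at this
        rw [if_neg hR1]
        exact this
  have hjinR : ∀ z, j z ∈ (R1.map j ++ n :: n' :: R2.map j) ↔ z ∈ R := by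
    intro z
    rw [hRR]
    simp only [List.mem_append, List.mem_map, List.mem_cons]
    constructor
    · rintro (⟨w, hw, hw'⟩ | h | h | ⟨w, hw, hw'⟩)
      · rw [← hj hw']; exact Or.inl hw
      · exact absurd h (hjn z).1
      · exact absurd h (hjn z).2
      · rw [← hj hw']; exact Or.inr hw
    · rintro (h | h)
      · exact Or.inl ⟨z, h, rfl⟩
      · exact Or.inr (Or.inr (Or.inr ⟨z, h, rfl⟩))
  have hface : M'.IsFace (R1.map j ++ n :: n' :: R2.map j) := by
    apply isFace_of_pth M'.toDMap (x := if R1 = [] then n else j d)
    · simp
    · have hm : ((R1 ++ R2).map j).Nodup := (List.nodup_map_iff hj).2 hnodup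
      rw [List.map_append] at hm
      have hn1 : n ∉ R1.map j ++ R2.map j := by
        intro h
        rw [← List.map_append] at h
        obtain ⟨z, _, hz⟩ := List.mem_map.1 h
        exact (hjn z).1 hz
      have hn2 : n' ∉ R1.map j ++ R2.map j := by
        intro h
        rw [← List.map_append] at h
        obtain ⟨z, _, hz⟩ := List.mem_map.1 h
        exact (hjn z).2 hz
      rw [List.nodup_middle, List.nodup_cons, List.nodup_middle, List.nodup_cons]
      refine ⟨?_, hn2, hm⟩
      simp only [List.mem_append, List.mem_cons, not_or] at hn1 ⊢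
      exact ⟨hn1.1, hnn, hn1.2⟩
    · rw [pth_append]
      refine ⟨n, hpR1, rfl, ?_⟩
      rw [hφn]
      refine ⟨rfl, ?_⟩
      rw [hφn']
      exact hpR2
  have hholmap : M'.hol (R1.map j) = s := by
    rw [hol_map M M' j hh]
  have hφR : ∀ z, z ∉ R → M'.φ (j z) = j (M.φ z) := by
    intro z hz
    rw [hφj, if_neg]
    intro h
    apply hz
    rw [← IsFace.φ_mem_iff M.toDMap hR, h]
    exact hrR
  have hD' : Fintype.card D' = Fintype.card D + 2 := by
    have e : D' ≃ D ⊕ Bool := by
      refine (Equiv.ofBijective (fun z : D ⊕ Bool => match z with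
        | Sum.inl z => j z
        | Sum.inr true => n
        | Sum.inr false => n') ⟨?_, ?_⟩).symm
      · rintro (z | _ | _) (w | _ | _) h <;> simp at h ⊢
        · exact hj h
        · exact (hjn z).2 h
        · exact (hjn z).1 h
        · exact (hjn w).2 h.symm
        · exact hnn h.symm
        · exact (hjn w).1 h.symm
        · exact hnn h
      · intro d'
        rcases hall d' with h | h | ⟨x, h⟩
        · exact ⟨Sum.inr true, h.symm⟩
        · exact ⟨Sum.inr false, h.symm⟩
        · exact ⟨Sum.inl x, h⟩
    rw [Fintype.card_congr e]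
    simp
  refine ⟨D', inferInstance, M', R1.map j ++ n :: n' :: R2.map j, ?_, hpl' hpl, ?_, ?_, ?_⟩
  · -- walk
    refine ⟨hface, c, ?_, ?_⟩
    · have hpp : pth M'.toDMap n (n :: n' :: R2.map j) (if R1 = [] then n else j d) :=
        ⟨rfl, by rw [hφn]; exact ⟨rfl, by rw [hφn']; exact hpR2⟩⟩
      rw [wk_split M' (R1.map j) (n :: n' :: R2.map j) hpR1 hpp (by simp), hholmap]
      simp only [LMap.wkA, hhn, hhn', add_zero, htn, htn', hfn]
      rw [sA_map M M' j hf hh, wkA_map M M' j ht hh, hs1, hs2]
      simp only [List.map_append, List.map_cons]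
      rw [hx, ← pw_add]
      congr 4
      ring_nf
    · intro h0
      apply hc0
      intro z
      have := h0 (j z)
      rw [hγ, hh] at this
      exact this
  · -- adjacency
    have hA : X.G.Adj (M.f r) ((a ^ (c - s)) y) := by
      rw [hfr, aut_pow_adj ha.adj]; exact hxy
    intro d'
    rcases hall d' with h | h | ⟨z, h⟩
    · rw [h, hfn, htn]; exact hA
    · rw [h, hfn', htn']; exact hA.symm
    · rw [← h, hf, ht]; exact hadj z
  · -- Rel
    refine ⟨fun z => j z.1, fun z w h => Subtype.ext (hj h), ?_, ?_, ?_, ?_, ?_⟩
    · intro z h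
      exact z.2 ((hjinR z.1).1 h)
    · intro z w h
      rw [hφR z.1 z.2, h]
    · intro z
      exact ⟨hf _, hh _⟩
    · intro d' hd' hd''
      exfalso
      rcases hall d' with h | h | ⟨z, h⟩
      · apply hd'; rw [h]; simp
      · apply hd'; rw [h]; simp
      · by_cases hz : z ∈ R
        · apply hd'; rw [← h]; exact (hjinR z).2 hz
        · exact hd'' ⟨z, hz⟩ h
    · rw [hD', hRR]
      simp
      ring
  · -- zero
    intro h0
    have hc00 := hc0 h0
    have hs0 : s = 0 := hol_zero M h0 R1
    refine ⟨?_, ?_, ?_⟩
    · intro d'
      rcases hall d' with h | h | ⟨z, h⟩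
      · rw [h]; exact ⟨hγn, hhn⟩
      · rw [h]; exact ⟨hγn', hhn'⟩
      · rw [← h, hγ, hh]; exact h0 z
    · intro hY d'
      rcases hall d' with h | h | ⟨z, h⟩
      · rw [h, hfn]; exact hY r
      · rw [h, hfn', hc00, hs0]; simpa using hyY
      · rw [← h, hf]; exact hY z
    · unfold LMap.wsum
      rw [add_zero]
      symm
      apply Finset.sum_of_injOn j
      · intro z _ w _ h; exact hj h
      · intro z _; simp
      · intro d' _ hd'
        rcases hall d' with h | h | ⟨z, h⟩
        · rw [if_pos]; rw [h]; simp
        · rw [if_pos]; rw [h]; simp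
        · exfalso; apply hd'; rw [← h]; simp
      · intro z _
        simp only [Set.mem_ofPred_eq]
        by_cases hz : z ∈ R
        · rw [if_pos hz, if_pos]
          exact (hjinR z).2 hz
        · have hz1 : M.φ z ∉ R := fun h => hz ((IsFace.φ_mem_iff M.toDMap hR).1 h)
          have hz2 : j z ∉ R1.map j ++ n :: n' :: R2.map j := fun h => hz ((hjinR z).1 h)
          rw [if_neg hz, if_neg hz2, hφR z hz, hφR _ hz1, hf, hf, hf]

end MSG.H70
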