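import Pool.Agent.Lib.MP_acafa7_al.MS.Iface1

/-! Lists of darts: paths, faces, lifted walks.  (MP_acafa7_al, helper70) -/

namespace MSG.H70

open Classical

section perm

variable {V : Type} (a : Equiv.Perm V)

theorem pw_add (m n : ℤ) (x : V) : (a ^ (m + n)) x = (a ^ m) ((a ^ n) x) := by
  rw [zpow_add]; rfl

theorem pw_inj (m : ℤ) {x y : V} (h : (a ^ m) x = (a ^ m) y) : x = y := (a ^ m).injective h

end perm

section pth

variable {D : Type} (M : DMap D)

/-- `l` is a `φ`-path starting with the dart `d`, the next dart after the path is `e`. -/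
def pth : D → List D → D → Prop
  | d, [], e => d = e
  | d, x :: l, e => x = d ∧ pth (M.φ d) l e

theorem pth_append (l l' : List D) : ∀ (d e : D),
    pth M d (l ++ l') e ↔ ∃ c, pth M d l c ∧ pth M c l' e := by
  induction l with
  | nil => intro d e; simp [pth]
  | cons x l ih =>
    intro d e
    simp only [List.cons_append, pth, ih]
    constructor
    · rintro ⟨h, c, h1, h2⟩; exact ⟨c, ⟨h, h1⟩, h2⟩
    · rintro ⟨c, ⟨h, h1⟩, h2⟩; exact ⟨h, c, h1, h2⟩

theorem map_eq_iff_pth (l : List D) : ∀ (x e : D),
    (x :: l).map M.φ = l ++ [e] ↔ pth M x (x :: l) e := by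
  induction l with
  | nil => intro x e; simp [pth]
  | cons y l ih =>
    intro x e
    have := ih y e
    simp only [List.map_cons, List.cons_append, List.cons.injEq, pth, true_and] at this ⊢
    constructor
    · rintro ⟨h, h'⟩
      subst h
      exact ⟨rfl, this.mp h'⟩
    · rintro ⟨h, h'⟩
      subst h
      exact ⟨rfl, this.mpr h'⟩

theorem isFace_cons (x : D) (l : List D) :
    M.IsFace (x :: l) ↔ (x :: l).Nodup ∧ pth M x (x :: l) x := by
  unfold DMap.IsFace
  rw [← map_eq_iff_pth]
  simp

theorem isFace_of_pth {l : List D} {x : D} (h0 : l ≠ []) (hn : l.Nodup) (h : pth M x l x) :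
    M.IsFace l := by
  cases l with
  | nil => exact absurd rfl h0
  | cons y l =>
    have : y = x := h.1
    subst this
    exact (isFace_cons M y l).2 ⟨hn, h⟩

theorem IsFace.pth_head {l : List D} (h : M.IsFace l) : ∃ x, l.head? = some x ∧ pth M x l x := by
  cases l with
  | nil => exact absurd rfl h.1
  | cons y l => exact ⟨y, rfl, ((isFace_cons M y l).1 h).2⟩

theorem pth_mem : ∀ (l : List D) (d e x : D), pth M d l e → x ∈ l → M.φ x ∈ l ∨ M.φ x = e := by
  intro l
  induction l with
  | nil => intro d e x _ hx; simp at hx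
  | cons y l ih =>
    intro d e x h hx
    obtain ⟨h1, h2⟩ := h
    subst h1
    rcases List.mem_cons.1 hx with hx | hx
    · subst hx
      cases l with
      | nil => right; exact h2
      | cons z l => left; rw [h2.1.symm]; simp
    · rcases ih _ _ x h2 hx with h | h
      · left; exact List.mem_cons_of_mem _ h
      · right; exact h

theorem pth_head_mem {l : List D} {d e : D} (h0 : l ≠ []) (h : pth M d l e) : d ∈ l := by
  cases l with
  | nil => exact absurd rfl h0
  | cons y l => rw [h.1]; simp

theorem IsFace.φ_mem {l : List D} (h : M.IsFace l) {x : D} (hx : x ∈ l) : M.φ x ∈ l := by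
  obtain ⟨y, hy, hp⟩ := IsFace.pth_head M h
  rcases pth_mem M l y y x hp hx with h1 | h1
  · exact h1
  · rw [h1]; exact pth_head_mem M h.1 hp

theorem IsFace.map_perm {l : List D} (h : M.IsFace l) : (l.map M.φ).Perm l := by
  rw [h.2.2]; exact List.rotate_perm l 1

theorem IsFace.φ_mem_iff {l : List D} (h : M.IsFace l) {x : D} : M.φ x ∈ l ↔ x ∈ l := by
  constructor
  · intro hx
    have := (IsFace.map_perm M h).mem_iff.2 hx
    obtain ⟨y, hy, hxy⟩ := List.mem_map.1 this
    rw [M.φ.injective hxy] at hy
    exact hy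
  · exact IsFace.φ_mem M h

theorem IsFace.rotate {l : List D} (h : M.IsFace l) (k : ℕ) : M.IsFace (l.rotate k) := by
  refine ⟨?_, ?_, ?_⟩
  · intro hh
    exact h.1 (List.rotate_eq_nil_iff.1 hh)
  · exact List.nodup_rotate.2 h.2.1
  · rw [List.map_rotate, h.2.2, List.rotate_rotate, List.rotate_rotate, Nat.add_comm]

end pth

section walk

variable {V D : Type} {a : Equiv.Perm V} (M : LMap V D a)

/-- sources of the darts of a list in the charts along the list -/
def sA : ℤ → List D → List V
  | _, [] => []
  | s, r :: l => (a ^ s) (M.f r) :: sA (s + M.h r) l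

theorem hol_nil : M.hol [] = 0 := rfl

theorem hol_cons (r : D) (l : List D) : M.hol (r :: l) = M.h r + M.hol l := by
  simp [LMap.hol]

theorem hol_append (l l' : List D) : M.hol (l ++ l') = M.hol l + M.hol l' := by
  simp [LMap.hol]

theorem hol_rotate (l : List D) (k : ℕ) : M.hol (l.rotate k) = M.hol l := by
  unfold LMap.hol
  rw [List.map_rotate]
  exact (List.rotate_perm _ _).sum_eq

theorem hol_zero (h : M.Zero) (l : List D) : M.hol l = 0 := by
  induction l with
  | nil => rfl
  | cons r l ih => rw [hol_cons, ih, (h r).2]; rfl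

theorem sA_append (l l' : List D) : ∀ s, sA M s (l ++ l') = sA M s l ++ sA M (s + M.hol l) l' := by
  induction l with
  | nil => intro s; simp [sA, hol_nil]
  | cons r l ih =>
    intro s
    simp only [List.cons_append, sA, ih, hol_cons, add_assoc]

theorem wkA_append (l l' : List D) : ∀ s,
    M.wkA s (l ++ l') = M.wkA s l ++ M.wkA (s + M.hol l) l' := by
  induction l with
  | nil => intro s; simp [LMap.wkA, hol_nil]
  | cons r l ih =>
    intro s
    simp only [List.cons_append, LMap.wkA, ih, hol_cons, add_assoc]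

theorem wkA_shift (l : List D) : ∀ s k : ℤ, M.wkA (k + s) l = (M.wkA s l).map (a ^ k) := by
  induction l with
  | nil => intro s k; simp [LMap.wkA]
  | cons r l ih =>
    intro s k
    simp only [LMap.wkA, List.map_cons, add_assoc, ih, pw_add]

@[simp] theorem length_sA (l : List D) : ∀ s, (sA M s l).length = l.length := by
  induction l with
  | nil => intro s; rfl
  | cons r l ih => intro s; simp [sA, ih]

@[simp] theorem length_wkA (l : List D) : ∀ s, (M.wkA s l).length = l.length := by
  induction l with
  | nil => intro s; rfl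
  | cons r l ih => intro s; simp [LMap.wkA, ih]

theorem t_eq (d : D) : M.t d = (a ^ M.h d) (M.f (M.φ d)) := M.tgt d

/-- main formula -/
theorem walk_split (R1 R2 : List D) : ∀ (s : ℤ) (d c : D), pth M.toDMap d R1 c →
    (a ^ s) (M.f d) :: M.wkA s (R1 ++ R2) =
      sA M s R1 ++ (a ^ (s + M.hol R1)) (M.f c) :: M.wkA (s + M.hol R1) R2 := by
  induction R1 with
  | nil =>
    intro s d c h
    have : d = c := h
    subst this
    simp [sA, hol_nil]
  | cons x l ih =>
    intro s d c h
    obtain ⟨h1, h2⟩ := h
    subst h1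
    have := ih (s + M.h x) (M.φ x) c h2
    simp only [List.cons_append, LMap.wkA, sA, hol_cons]
    rw [t_eq, ← pw_add, this, add_assoc]

theorem wk_split (R1 R2 : List D) {d c : D} (h : pth M.toDMap d R1 c)
    (h' : pth M.toDMap c R2 d) (h0 : R1 ++ R2 ≠ []) :
    M.wk (R1 ++ R2) = sA M 0 R1 ++ (a ^ (M.hol R1)) (M.f c) :: M.wkA (M.hol R1) R2 := by
  have h1 : M.wk (R1 ++ R2) = (a ^ (0 : ℤ)) (M.f d) :: M.wkA 0 (R1 ++ R2) := by
    cases R1 with
    | nil =>
      cases R2 with
      | nil => exact absurd rfl h0
      | cons y l =>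
        have h2 : d = c := h
        have h3 : y = c := h'.1
        subst h2; subst h3
        simp [LMap.wk]
    | cons x l =>
      have h3 : x = d := h.1
      subst h3
      simp [LMap.wk]
  rw [h1, walk_split M R1 R2 0 d c h]
  simp

@[simp] theorem length_wk (R : List D) (h0 : R ≠ []) : (M.wk R).length = R.length + 1 := by
  cases R with
  | nil => exact absurd rfl h0
  | cons r l => simp [LMap.wk]

theorem wk_last {R : List D} (hR : M.IsFace R) {r : D} (hr : R.head? = some r) :
    (M.wk R).getLast? = some ((a ^ M.hol R) (M.f r)) := by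
  obtain ⟨y, hy, hp⟩ := IsFace.pth_head M.toDMap hR
  rw [hy] at hr
  cases hr
  have := wk_split M R [] hp rfl (by simpa using hR.1)
  simp only [List.append_nil] at this
  rw [this]
  simp [LMap.wkA]

/-- splitting of a walk according to positions -/
theorem hasWalk_split {R : List D} {u v : List V} {x : V} {c : ℤ} (hR : M.IsFace R)
    (hw : M.wk R = (u ++ x :: v).map (a ^ c)) :
    ∃ (R1 R2 : List D) (d e : D), R = R1 ++ R2 ∧ pth M.toDMap d R1 e ∧ pth M.toDMap e R2 d ∧
      R1.length = u.length ∧ R2.length = v.length ∧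
      sA M 0 R1 = u.map (a ^ c) ∧ (a ^ (M.hol R1)) (M.f e) = (a ^ c) x ∧
      M.wkA (M.hol R1) R2 = v.map (a ^ c) := by
  obtain ⟨y, hy, hp⟩ := IsFace.pth_head M.toDMap hR
  have hlen : R.length = u.length + v.length := by
    have := congrArg List.length hw
    rw [length_wk M R hR.1] at this
    simp at this
    omega
  have hsp : R = R.take u.length ++ R.drop u.length := (List.take_append_drop _ _).symm
  rw [hsp, pth_append] at hp
  obtain ⟨e, h1, h2⟩ := hp
  have hl1 : (R.take u.length).length = u.length := by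
    rw [List.length_take]; omega
  have hl2 : (R.drop u.length).length = v.length := by
    rw [List.length_drop]; omega
  have hws := wk_split M (R.take u.length) (R.drop u.length) h1 h2 (by rw [← hsp]; exact hR.1)
  rw [← hsp, hw] at hws
  simp only [List.map_append, List.map_cons] at hws
  have h3 := List.append_inj hws (by simp [hl1])
  refine ⟨_, _, y, e, hsp, h1, h2, hl1, hl2, h3.1.symm, ?_, ?_⟩
  · exact (List.cons.inj h3.2).1.symm
  · exact (List.cons.inj h3.2).2.symm

theorem aut_pow_adj {X : Cx V} (h : ∀ x y, X.G.Adj (a x) (a y) ↔ X.G.Adj x y) (n : ℤ) (x y : V) :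
    X.G.Adj ((a ^ n) x) ((a ^ n) y) ↔ X.G.Adj x y := by
  have hnat : ∀ (m : ℕ) (x y : V), X.G.Adj ((a ^ m) x) ((a ^ m) y) ↔ X.G.Adj x y := by
    intro m
    induction m with
    | zero => intro x y; simp
    | succ m ih =>
      intro x y
      rw [pow_succ', Equiv.Perm.mul_apply, Equiv.Perm.mul_apply, h, ih]
  cases n with
  | ofNat m => simpa using hnat m x y
  | negSucc m =>
    have := hnat (m + 1) ((a ^ (Int.negSucc m)) x) ((a ^ (Int.negSucc m)) y)
    rw [← this]
    simp [zpow_negSucc]

end walk

end MSG.H70
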