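import Pool.Agent.Lib.MP_acafa7_al.MS.H70.Kit

/-! Change of charts of a labelled map.  (MP_acafa7_al, helper70) -/

namespace MSG.H70

open Classical

variable {V D : Type} {a : Equiv.Perm V}

/-- change of charts by `κ` -/
def rc (M : LMap V D a) (κ : D → ℤ) : LMap V D a where
  toDMap := M.toDMap
  f d := (a ^ κ d) (M.f d)
  γ d := κ d + M.γ d - κ (M.ι d)
  h d := κ d + M.h d - κ (M.φ d)
  γι d := by rw [M.γι, M.ιι]; ring
  tgt d := by
    rw [← pw_add, ← pw_add, sub_add_cancel, sub_add_cancel, pw_add, pw_add, M.tgt]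

theorem rc_t (M : LMap V D a) (κ : D → ℤ) (d : D) : (rc M κ).t d = (a ^ κ d) (M.t d) := by
  unfold LMap.t
  show (a ^ (κ d + M.γ d - κ (M.ι d))) ((a ^ κ (M.ι d)) (M.f (M.ι d))) = _
  rw [← pw_add, sub_add_cancel, pw_add]

theorem rc_wkA (M : LMap V D a) (κ : D → ℤ) (l : List D) : ∀ (s : ℤ) (d e : D),
    pth M.toDMap d l e → (rc M κ).wkA s l = M.wkA (s + κ d) l := by
  induction l with
  | nil => intro s d e _; rfl
  | cons x l ih =>
    intro s d e h
    obtain ⟨h1, h2⟩ := h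
    subst h1
    rw [LMap.wkA, LMap.wkA, rc_t, ih _ _ e h2, ← pw_add]
    congr 2
    show s + (κ x + M.h x - κ (M.φ x)) + κ (M.φ x) = _
    ring

theorem rc_wk (M : LMap V D a) (κ : D → ℤ) (R : List D) (hR : M.IsFace R) :
    ∃ k : ℤ, (rc M κ).wk R = (M.wk R).map (a ^ k) := by
  obtain ⟨r, hr, hp⟩ := IsFace.pth_head M.toDMap hR
  cases R with
  | nil => exact absurd rfl hR.1
  | cons y l =>
    have : y = r := by simpa using hr
    subst this
    refine ⟨κ y, ?_⟩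
    show (a ^ κ y) (M.f y) :: (rc M κ).wkA 0 (y :: l) = _
    rw [rc_wkA M κ _ 0 _ _ hp, add_comm, wkA_shift]
    rfl

/-- one can change the charts in a face so that the result is not `Zero` -/
theorem rechart (M : LMap V D a) (R : List D) (hR : M.IsFace R) :
    ∃ M'' : LMap V D a, M''.toDMap = M.toDMap ∧ ¬ M''.Zero ∧
      (∀ x, x ∉ R → M''.f x = M.f x ∧ M''.h x = M.h x) ∧ (∀ x, M''.Tri x ↔ M.Tri x) ∧
      (∀ G : SimpleGraph V, (∀ (n : ℤ) x y, G.Adj ((a ^ n) x) ((a ^ n) y) ↔ G.Adj x y) →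
        M.AdjM G → M''.AdjM G) ∧
      ∃ k : ℤ, M''.wk R = (M.wk R).map (a ^ k) := by
  obtain ⟨p, hp⟩ : ∃ p, p ∈ R := by
    cases R with
    | nil => exact absurd rfl hR.1
    | cons p l => exact ⟨p, by simp⟩
  set κ : D → ℤ := fun x => if x = p then 1 - M.γ p else 0 with hκ
  refine ⟨rc M κ, rfl, ?_, ?_, ?_, ?_, rc_wk M κ R hR⟩
  · intro h0
    have h1 := (h0 p).1
    change κ p + M.γ p - κ (M.ι p) = 0 at h1
    simp only [hκ] at h1
    rw [if_pos trivial, if_neg (M.ne p)] at h1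
    omega
  · intro x hx
    have h1 : κ x = 0 := by
      simp only [hκ]; rw [if_neg]; intro h; exact hx (h ▸ hp)
    have h2 : κ (M.φ x) = 0 := by
      simp only [hκ]; rw [if_neg]; intro h
      apply hx
      rw [← IsFace.φ_mem_iff M.toDMap hR, h]
      exact hp
    constructor
    · show (a ^ κ x) (M.f x) = _
      rw [h1]; simp
    · show κ x + M.h x - κ (M.φ x) = _
      rw [h1, h2]; ring
  · intro x
    unfold LMap.Tri
    constructor
    · rintro ⟨h1, h2⟩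
      refine ⟨h1, ?_⟩
      have h3 : M.φ (M.φ (M.φ x)) = x := h1.1
      change (κ x + M.h x - κ (M.φ x)) + (κ (M.φ x) + M.h (M.φ x) - κ (M.φ (M.φ x))) +
        (κ (M.φ (M.φ x)) + M.h (M.φ (M.φ x)) - κ (M.φ (M.φ (M.φ x)))) = 0 at h2
      rw [h3] at h2
      linarith
    · rintro ⟨h1, h2⟩
      refine ⟨h1, ?_⟩
      have h3 : M.φ (M.φ (M.φ x)) = x := h1.1
      change (κ x + M.h x - κ (M.φ x)) + (κ (M.φ x) + M.h (M.φ x) - κ (M.φ (M.φ x))) +
        (κ (M.φ (M.φ x)) + M.h (M.φ (M.φ x)) - κ (M.φ (M.φ (M.φ x)))) = 0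
      rw [h3]
      linarith
  · intro G hG hadj x
    rw [rc_t]
    show G.Adj ((a ^ κ x) (M.f x)) _
    rw [hG]
    exact hadj x

end MSG.H70
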